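import Mathlib

set_option autoImplicit false
open Finset

namespace Pool.Agent.Results.MP_0ff3a5_nt.GoldenCriterion

/-- `A(t,α) = {⌊t α^n⌋ : n = 0,1,2,…}`. -/
def seqSet (t α : ℝ) : Set ℤ := {m | ∃ n : ℕ, m = ⌊t * α ^ n⌋}

/-- Every sufficiently large integer is a sum of a finite subset of `A`. -/
def IsComplete (A : Set ℤ) : Prop :=
  ∃ N : ℤ, ∀ m : ℤ, N ≤ m → ∃ F : Finset ℤ, (F : Set ℤ) ⊆ A ∧ ∑ a ∈ F, a = m

/-- `(t,α)` is good: `t, α > 0` and `A(t,α)` is complete. -/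
def Good (t α : ℝ) : Prop := 0 < t ∧ 0 < α ∧ IsComplete (seqSet t α)

open scoped Classical in
/-- The sum of all elements of `A` in `[0, a)`. -/
noncomputable def sumBelow (A : Set ℤ) (a : ℤ) : ℤ := ∑ b ∈ (Finset.Ico 0 a).filter (· ∈ A), b

/-! ### Brown's criterion -/

lemma brown (A : Set ℤ) (hinf : ∀ m : ℤ, ∃ a ∈ A, m ≤ a)
    (h : ∀ a ∈ A, a ≤ 1 + sumBelow A a) : IsComplete A := by
  classical
  have key : ∀ N : ℕ, ∀ m : ℤ, 0 ≤ m → m ≤ sumBelow A N →
      ∃ F : Finset ℤ, F ⊆ (Finset.Ico 0 (N : ℤ)).filter (· ∈ A) ∧ ∑ a ∈ F, a = m := by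
    intro N
    induction N with
    | zero =>
      intro m h0 h1
      refine ⟨∅, by simp, ?_⟩
      simp only [sumBelow, Nat.cast_zero, Ico_self, filter_empty, sum_empty] at h1
      simp
      linarith
    | succ N ih =>
      intro m h0 h1
      have hIco : Finset.Ico (0 : ℤ) ((N + 1 : ℕ) : ℤ) = insert (N : ℤ) (Finset.Ico 0 (N : ℤ)) := by
        ext x
        simp only [mem_Ico, mem_insert, Nat.cast_succ]
        omega
      by_cases hN : (N : ℤ) ∈ A
      · have hS : sumBelow A ((N + 1 : ℕ) : ℤ) = N + sumBelow A N := by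
          unfold sumBelow
          rw [hIco, filter_insert, if_pos hN, sum_insert (by simp)]
        have hle := h _ hN
        by_cases hm : m ≤ sumBelow A N
        · obtain ⟨F, hF, hs⟩ := ih m h0 hm
          exact ⟨F, hF.trans (filter_subset_filter _ (Ico_subset_Ico le_rfl (by push_cast; omega))), hs⟩
        · obtain ⟨F, hF, hs⟩ := ih (m - N) (by omega) (by rw [hS] at h1; omega)
          refine ⟨insert (N : ℤ) F, ?_, ?_⟩
          · intro x hx
            rw [mem_insert] at hx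
            rw [mem_filter, hIco, mem_insert]
            rcases hx with rfl | hx
            · exact ⟨Or.inl rfl, hN⟩
            · have := mem_filter.1 (hF hx)
              exact ⟨Or.inr this.1, this.2⟩
          · rw [sum_insert, hs]
            · ring
            · intro hc
              have := mem_filter.1 (hF hc)
              simp at this
      · have hS : sumBelow A ((N + 1 : ℕ) : ℤ) = sumBelow A N := by
          unfold sumBelow
          rw [hIco, filter_insert, if_neg hN]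
        obtain ⟨F, hF, hs⟩ := ih m h0 (by rw [hS] at h1; exact h1)
        exact ⟨F, hF.trans (filter_subset_filter _ (Ico_subset_Ico le_rfl (by push_cast; omega))), hs⟩
  refine ⟨0, fun m hm => ?_⟩
  obtain ⟨a, ha, hma⟩ := hinf m
  have ha0 : 0 ≤ a := hm.trans hma
  obtain ⟨F, hF, hs⟩ := key (a + 1).toNat m hm (by
    have e : ((a + 1).toNat : ℤ) = a + 1 := Int.toNat_of_nonneg (by omega)
    rw [e]
    unfold sumBelow
    refine hma.trans ?_
    exact single_le_sum (f := fun x : ℤ => x) (fun x hx => (mem_Ico.1 (mem_filter.1 hx).1).1)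
      (mem_filter.2 ⟨mem_Ico.2 ⟨ha0, by omega⟩, ha⟩))
  exact ⟨F, fun x hx => (mem_filter.1 (hF hx)).2, hs⟩

/-! ### The chain of non-representable numbers -/

section Chain

variable {a : ℕ → ℤ}

/-- `m` is a sum of a finite set of values of `a`. -/
def Rep (a : ℕ → ℤ) (m : ℤ) : Prop :=
  ∃ F : Finset ℤ, (F : Set ℤ) ⊆ {m | ∃ n : ℕ, m = a n} ∧ ∑ x ∈ F, x = m

/-- The sum of the distinct values `a 0, …, a (j-1)`. -/
noncomputable def SS (a : ℕ → ℤ) (j : ℕ) : ℤ := ∑ x ∈ (range j).image a, x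

lemma SS_succ (hnn : ∀ n, 0 ≤ a n) (j : ℕ) : SS a (j + 1) ≤ SS a j + a j := by
  classical
  unfold SS
  rw [range_add_one, image_insert]
  by_cases h : a j ∈ (range j).image a
  · rw [insert_eq_of_mem h]
    linarith [hnn j]
  · rw [sum_insert h]
    linarith

lemma step (hnn : ∀ n, 0 ≤ a n) (hmono : Monotone a) (hfib : ∀ n, a n + a (n + 1) ≤ a (n + 2))
    {j : ℕ} {M : ℤ} (h1 : ¬ Rep a M) (h2 : SS a j < M) (h3 : M < a (j + 1)) :
    ¬ Rep a (M + a (j + 2)) ∧ SS a (j + 2) < M + a (j + 2) ∧ M + a (j + 2) < a (j + 3) := by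
  have e1 : SS a (j + 2) < M + a (j + 2) := by
    have := SS_succ hnn j
    have := SS_succ hnn (j + 1)
    have := hfib j
    linarith
  have e2 : M + a (j + 2) < a (j + 3) := by
    have := hfib (j + 1)
    have e : a (j + 1 + 2) = a (j + 3) := rfl
    have e' : a (j + 1 + 1) = a (j + 2) := rfl
    rw [e, e'] at this
    linarith
  refine ⟨?_, e1, e2⟩
  rintro ⟨F, hF, hs⟩
  have hle : ∀ x ∈ F, x ≤ M + a (j + 2) := by
    intro x hx
    rw [← hs]
    exact single_le_sum (f := fun x : ℤ => x) (fun y hy => by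
      obtain ⟨k, rfl⟩ := hF hy
      exact hnn k) hx
  by_cases hm : a (j + 2) ∈ F
  · apply h1
    refine ⟨F.erase (a (j + 2)), fun x hx => hF (mem_of_mem_erase hx), ?_⟩
    have := add_sum_erase F (fun x : ℤ => x) hm
    linarith
  · have hsub : F ⊆ (range (j + 2)).image a := by
      intro x hx
      obtain ⟨k, rfl⟩ := hF hx
      have h4 : k < j + 3 := by
        by_contra hc
        have := hmono (not_lt.1 hc)
        linarith [hle _ hx]
      have h5 : k ≠ j + 2 := by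
        rintro rfl
        exact hm hx
      exact mem_image_of_mem a (mem_range.2 (by omega))
    have h6 : ∑ x ∈ F, x ≤ SS a (j + 2) :=
      sum_le_sum_of_subset_of_nonneg hsub (fun y hy _ => by
        obtain ⟨k, _, rfl⟩ := mem_image.1 hy
        exact hnn k)
    linarith

lemma not_complete (hnn : ∀ n, 0 ≤ a n) (hmono : Monotone a)
    (hfib : ∀ n, a n + a (n + 1) ≤ a (n + 2))
    {j : ℕ} {M : ℤ} (h1 : ¬ Rep a M) (h2 : SS a j < M) (h3 : M < a (j + 1)) :
    ¬ IsComplete {m | ∃ n : ℕ, m = a n} := by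
  have hSS0 : 0 ≤ SS a j := sum_nonneg fun x hx => by
    obtain ⟨k, _, rfl⟩ := mem_image.1 hx
    exact hnn k
  have key : ∀ i : ℕ, ∃ M' : ℤ, ¬ Rep a M' ∧ SS a (j + 2 * i) < M' ∧ M' < a (j + 2 * i + 1) ∧
      (i : ℤ) < M' := by
    intro i
    induction i with
    | zero => exact ⟨M, h1, h2, h3, by simp only [Nat.cast_zero]; linarith⟩
    | succ i ih =>
      obtain ⟨M', g1, g2, g3, g4⟩ := ih
      obtain ⟨k1, k2, k3⟩ := step hnn hmono hfib g1 g2 g3
      refine ⟨M' + a (j + 2 * i + 2), k1, k2, k3, ?_⟩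
      have h5 : a (j + 2 * i + 1) ≤ a (j + 2 * i + 2) := hmono (by omega)
      push_cast
      have h6 : (0 : ℤ) ≤ i := by positivity
      linarith
  rintro ⟨N, hN⟩
  obtain ⟨M', g1, _, _, g4⟩ := key N.toNat
  exact g1 (hN M' (by have := Int.self_le_toNat N; linarith))

end Chain

lemma criterion (a : ℕ → ℤ) (hnn : ∀ n, 0 ≤ a n) (hmono : Monotone a)
    (hfib : ∀ n, a n + a (n + 1) ≤ a (n + 2)) (hinf : ∀ m : ℤ, ∃ n, m ≤ a n) :
    IsComplete {m | ∃ n : ℕ, m = a n} ↔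
      ∀ n, a n ≤ 1 + sumBelow {m | ∃ n : ℕ, m = a n} (a n) := by
  classical
  constructor
  · intro hc
    by_contra hcon
    push Not at hcon
    -- minimal index
    have hex : ∃ n, 1 + sumBelow {m | ∃ n : ℕ, m = a n} (a n) < a n := hcon
    set n := Nat.find hex with hn
    have hn1 := Nat.find_spec hex
    rw [← hn] at hn1
    have hlt : ∀ i < n, a i < a n := by
      intro i hi
      rcases lt_or_eq_of_le (hmono hi.le) with h | h
      · exact h
      · exfalso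
        apply Nat.find_min hex hi
        rw [h]
        exact hn1
    set M : ℤ := 1 + sumBelow {m | ∃ n : ℕ, m = a n} (a n) with hM
    have hrep : ¬ Rep a M := by
      rintro ⟨F, hF, hs⟩
      have hsub : F ⊆ (Finset.Ico 0 (a n)).filter (· ∈ {m | ∃ n : ℕ, m = a n}) := by
        intro x hx
        rw [mem_filter, mem_Ico]
        refine ⟨⟨?_, ?_⟩, hF hx⟩
        · obtain ⟨k, rfl⟩ := hF hx
          exact hnn k
        · refine lt_of_le_of_lt ?_ hn1
          rw [← hs]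
          exact single_le_sum (f := fun x : ℤ => x) (fun y hy => by
            obtain ⟨k, rfl⟩ := hF hy
            exact hnn k) hx
      have : ∑ x ∈ F, x ≤ sumBelow {m | ∃ n : ℕ, m = a n} (a n) := by
        unfold sumBelow
        refine sum_le_sum_of_subset_of_nonneg hsub (fun y hy _ => ?_)
        exact (mem_Ico.1 (mem_filter.1 hy).1).1
      linarith
    refine not_complete (j := n - 1) hnn hmono hfib hrep ?_ ?_ hc
    · have : SS a (n - 1) ≤ sumBelow {m | ∃ n : ℕ, m = a n} (a n) := by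
        unfold SS sumBelow
        refine sum_le_sum_of_subset_of_nonneg ?_ (fun y hy _ => (mem_Ico.1 (mem_filter.1 hy).1).1)
        intro x hx
        obtain ⟨i, hi, rfl⟩ := mem_image.1 hx
        rw [mem_range] at hi
        rw [mem_filter, mem_Ico]
        exact ⟨⟨hnn i, hlt i (by omega)⟩, i, rfl⟩
      linarith
    · exact lt_of_lt_of_le hn1 (hmono (by omega))
  · intro h
    apply brown
    · intro m
      obtain ⟨n, hn⟩ := hinf m
      exact ⟨a n, ⟨n, rfl⟩, hn⟩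
    · rintro _ ⟨n, rfl⟩
      exact h n

/-! ### Facts about `⌊t α^n⌋` -/

lemma sumBelow_le (a : ℕ → ℤ) (hnn : ∀ n, 0 ≤ a n) (hmono : Monotone a) (n : ℕ) :
    sumBelow {m | ∃ n : ℕ, m = a n} (a n) ≤ ∑ i ∈ range n, a i := by
  classical
  have h1 : sumBelow {m | ∃ n : ℕ, m = a n} (a n) ≤ SS a n := by
    unfold SS sumBelow
    refine sum_le_sum_of_subset_of_nonneg ?_ (fun y hy _ => by
      obtain ⟨k, _, rfl⟩ := mem_image.1 hy
      exact hnn k)
    intro x hx
    rw [mem_filter, mem_Ico] at hx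
    obtain ⟨⟨_, h2⟩, k, rfl⟩ := hx
    refine mem_image_of_mem a (mem_range.2 ?_)
    by_contra hc
    have := hmono (not_lt.1 hc)
    linarith
  have h2 : ∀ n, SS a n ≤ ∑ i ∈ range n, a i := by
    intro n
    induction n with
    | zero => simp [SS]
    | succ n ih =>
      have := SS_succ hnn n
      rw [sum_range_succ]
      linarith
  exact h1.trans (h2 n)

lemma le_sumBelow (a : ℕ → ℤ) (hnn : ∀ n, 0 ≤ a n) (k n : ℕ)
    (hinj : Set.InjOn a (Finset.Ico k n)) (hlt : ∀ i ∈ Finset.Ico k n, a i < a n) :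
    ∑ i ∈ Finset.Ico k n, a i ≤ sumBelow {m | ∃ n : ℕ, m = a n} (a n) := by
  classical
  have h1 : ∑ i ∈ Finset.Ico k n, a i = ∑ x ∈ (Finset.Ico k n).image a, x := by
    rw [sum_image hinj]
  rw [h1]
  unfold sumBelow
  refine sum_le_sum_of_subset_of_nonneg ?_ (fun y hy _ => (mem_Ico.1 (mem_filter.1 hy).1).1)
  intro x hx
  obtain ⟨i, hi, rfl⟩ := mem_image.1 hx
  rw [mem_filter, mem_Ico]
  exact ⟨⟨hnn i, hlt i hi⟩, i, rfl⟩

section Floor

variable {t α : ℝ}

lemma golden_sq (hα : (1 + √5) / 2 ≤ α) : α + 1 ≤ α ^ 2 := by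
  have h5 : √5 ^ 2 = 5 := Real.sq_sqrt (by norm_num)
  have h0 : 0 ≤ √5 := Real.sqrt_nonneg 5
  nlinarith

lemma golden_gt (hα : (1 + √5) / 2 ≤ α) : 3 / 2 < α := by
  have h5 : √5 ^ 2 = 5 := Real.sq_sqrt (by norm_num)
  have h0 : 0 ≤ √5 := Real.sqrt_nonneg 5
  have : 2 < √5 := by nlinarith
  linarith

lemma fl_nonneg (ht : 0 < t) (hα : 0 < α) (n : ℕ) : 0 ≤ ⌊t * α ^ n⌋ :=
  Int.floor_nonneg.2 (by positivity)

lemma fl_mono (ht : 0 < t) (hα : 1 ≤ α) : Monotone (fun n : ℕ => ⌊t * α ^ n⌋) := by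
  intro i j hij
  exact Int.floor_le_floor (mul_le_mul_of_nonneg_left (pow_le_pow_right₀ hα hij) ht.le)

lemma fl_fib (ht : 0 < t) (hα : (1 + √5) / 2 ≤ α) (n : ℕ) :
    ⌊t * α ^ n⌋ + ⌊t * α ^ (n + 1)⌋ ≤ ⌊t * α ^ (n + 2)⌋ := by
  rw [Int.le_floor]
  push_cast
  have h1 := Int.floor_le (t * α ^ n)
  have h2 := Int.floor_le (t * α ^ (n + 1))
  have h3 := golden_sq hα
  have h4 : 0 < α := by linarith [golden_gt hα]
  have h5 : 0 < t * α ^ n := by positivity
  have e1 : t * α ^ (n + 1) = t * α ^ n * α := by ring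
  have e2 : t * α ^ (n + 2) = t * α ^ n * α ^ 2 := by ring
  rw [e1] at h2
  rw [e1, e2]
  nlinarith

lemma fl_inf (ht : 0 < t) (hα : 1 < α) (m : ℤ) : ∃ n : ℕ, m ≤ ⌊t * α ^ n⌋ := by
  have h1 : Filter.Tendsto (fun n : ℕ => t * α ^ n) Filter.atTop Filter.atTop :=
    (tendsto_pow_atTop_atTop_of_one_lt hα).const_mul_atTop ht
  obtain ⟨n, hn⟩ := (h1.eventually_ge_atTop (m : ℝ)).exists
  exact ⟨n, Int.le_floor.2 hn⟩

lemma good_iff (ht : 0 < t) (hα : (1 + √5) / 2 ≤ α) :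
    Good t α ↔ ∀ n : ℕ, ⌊t * α ^ n⌋ ≤ 1 + sumBelow (seqSet t α) ⌊t * α ^ n⌋ := by
  have h1 : 3 / 2 < α := golden_gt hα
  have h2 := criterion (fun n : ℕ => ⌊t * α ^ n⌋) (fun n => fl_nonneg ht (by linarith) n)
    (fl_mono ht (by linarith)) (fun n => fl_fib ht hα n) (fun m => fl_inf ht (by linarith) m)
  constructor
  · rintro ⟨_, _, h⟩
    exact h2.1 h
  · intro h
    exact ⟨ht, by linarith, h2.2 h⟩

/-- once a value is at least `2` the next one is strictly larger -/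
lemma fl_strict (_ht : 0 < t) (hα : (1 + √5) / 2 ≤ α) (n : ℕ) (h : 2 ≤ ⌊t * α ^ n⌋) :
    ⌊t * α ^ n⌋ < ⌊t * α ^ (n + 1)⌋ := by
  have h1 : 3 / 2 < α := golden_gt hα
  rw [Int.lt_iff_add_one_le, Int.le_floor]
  push_cast
  have h2 := Int.floor_le (t * α ^ n)
  have h3 : (2 : ℝ) ≤ (⌊t * α ^ n⌋ : ℝ) := by exact_mod_cast h
  have e1 : t * α ^ (n + 1) = t * α ^ n * α := by ring
  rw [e1]
  nlinarith

lemma sum_le_SS (ht : 0 < t) (hα : (1 + √5) / 2 ≤ α) (n : ℕ) :
    ∑ i ∈ range n, ⌊t * α ^ i⌋ ≤ SS (fun n : ℕ => ⌊t * α ^ n⌋) n + 1 := by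
  classical
  have h1 : 3 / 2 < α := golden_gt hα
  have hm := fl_mono ht (by linarith : (1 : ℝ) ≤ α)
  induction n with
  | zero => simp [SS]
  | succ n ih =>
    rw [sum_range_succ]
    by_cases h : ⌊t * α ^ n⌋ ∈ (range n).image (fun n : ℕ => ⌊t * α ^ n⌋)
    · have e : SS (fun n : ℕ => ⌊t * α ^ n⌋) (n + 1) = SS (fun n : ℕ => ⌊t * α ^ n⌋) n := by
        unfold SS
        rw [range_add_one, image_insert, insert_eq_of_mem h]
      rw [e]
      obtain ⟨i, hi, hi2⟩ := mem_image.1 h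
      rw [mem_range] at hi
      replace hi2 : ⌊t * α ^ i⌋ = ⌊t * α ^ n⌋ := hi2
      obtain ⟨m, rfl⟩ : ∃ m, n = m + 1 := ⟨n - 1, by omega⟩
      have h3 : ⌊t * α ^ (m + 1)⌋ ≤ ⌊t * α ^ m⌋ := by
        rw [← hi2]
        exact hm (by omega)
      have h4 : ⌊t * α ^ m⌋ < 2 := by
        by_contra hc
        have := fl_strict ht hα m (not_lt.1 hc)
        linarith
      have h5 := fl_nonneg ht (by linarith : 0 < α) (m + 1)
      have h6 : ⌊t * α ^ m⌋ ≤ ⌊t * α ^ (m + 1)⌋ := hm (by omega)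
      rcases (by omega : ⌊t * α ^ (m + 1)⌋ = 0 ∨ ⌊t * α ^ (m + 1)⌋ = 1) with h7 | h7
      · rw [h7]
        linarith
      · -- all earlier values vanish
        have h8 : ⌊t * α ^ m⌋ = 1 := by omega
        have h9 : ∑ i ∈ range m, ⌊t * α ^ i⌋ = 0 := by
          apply sum_eq_zero
          intro i hi'
          rw [mem_range] at hi'
          obtain ⟨l, rfl⟩ : ∃ l, m = l + 1 := ⟨m - 1, by omega⟩
          have := fl_fib ht hα l
          have h10 : ⌊t * α ^ i⌋ ≤ ⌊t * α ^ l⌋ := hm (by omega)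
          have h11 := fl_nonneg ht (by linarith : 0 < α) i
          have e2 : ⌊t * α ^ (l + 2)⌋ = 1 := h7
          omega
        have h12 : 1 ≤ SS (fun n : ℕ => ⌊t * α ^ n⌋) (m + 1) := by
          unfold SS
          rw [← h8]
          refine single_le_sum (f := fun x : ℤ => x) (fun y hy => ?_)
            (mem_image_of_mem (fun n : ℕ => ⌊t * α ^ n⌋) (mem_range.2 (Nat.lt_succ_self m)))
          obtain ⟨k, _, rfl⟩ := mem_image.1 hy
          exact fl_nonneg ht (by linarith : 0 < α) k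
        rw [sum_range_succ, h9, h8, h7]
        linarith
    · have e : SS (fun n : ℕ => ⌊t * α ^ n⌋) (n + 1)
          = ⌊t * α ^ n⌋ + SS (fun n : ℕ => ⌊t * α ^ n⌋) n := by
        unfold SS
        rw [range_add_one, image_insert, sum_insert h]
      rw [e]
      linarith

lemma SS_le_sumBelow (ht : 0 < t) (hα : (1 + √5) / 2 ≤ α) (n : ℕ) (hn : 2 ≤ ⌊t * α ^ n⌋) :
    SS (fun n : ℕ => ⌊t * α ^ n⌋) n ≤ sumBelow (seqSet t α) ⌊t * α ^ n⌋ := by
  classical
  have h1 : 3 / 2 < α := golden_gt hα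
  have hm := fl_mono ht (by linarith : (1 : ℝ) ≤ α)
  unfold SS sumBelow
  refine sum_le_sum_of_subset_of_nonneg ?_ (fun y hy _ => (mem_Ico.1 (mem_filter.1 hy).1).1)
  intro x hx
  obtain ⟨i, hi, rfl⟩ := mem_image.1 hx
  rw [mem_range] at hi
  rw [mem_filter, mem_Ico]
  refine ⟨⟨fl_nonneg ht (by linarith) i, ?_⟩, i, rfl⟩
  change ⌊t * α ^ i⌋ < ⌊t * α ^ n⌋
  by_contra hc
  rw [not_lt] at hc
  have h2 : ⌊t * α ^ i⌋ < ⌊t * α ^ (i + 1)⌋ := fl_strict ht hα i (hn.trans hc)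
  have h3 : ⌊t * α ^ (i + 1)⌋ ≤ ⌊t * α ^ n⌋ := hm (by omega)
  linarith

/-- the Brown inequality is automatic at large indices when `α < 2` -/
lemma auto (ht : 0 < t) (hα : (1 + √5) / 2 ≤ α) (n : ℕ)
    (h : t + n * (α - 1) ≤ t * α ^ n * (2 - α)) :
    ⌊t * α ^ n⌋ ≤ 1 + sumBelow (seqSet t α) ⌊t * α ^ n⌋ := by
  classical
  have h1 : 3 / 2 < α := golden_gt hα
  have h0 : 0 ≤ sumBelow (seqSet t α) ⌊t * α ^ n⌋ := by
    unfold sumBelow
    exact sum_nonneg fun y hy => (mem_Ico.1 (mem_filter.1 hy).1).1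
  by_cases hn : ⌊t * α ^ n⌋ < 2
  · omega
  rw [not_lt] at hn
  have h2 := SS_le_sumBelow ht hα n hn
  have h3 := sum_le_SS ht hα n
  have h4 : (∑ i ∈ range n, t * α ^ i) - n ≤ ((∑ i ∈ range n, ⌊t * α ^ i⌋ : ℤ) : ℝ) := by
    push_cast
    have : ∑ i ∈ range n, (t * α ^ i - 1) ≤ ∑ i ∈ range n, (⌊t * α ^ i⌋ : ℝ) :=
      sum_le_sum fun i _ => (Int.sub_one_lt_floor _).le
    rw [sum_sub_distrib] at this
    simpa using this
  have h5 : (∑ i ∈ range n, t * α ^ i) * (α - 1) = t * (α ^ n - 1) := by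
    rw [← mul_sum, mul_assoc, geom_sum_mul]
  have h6 : t * α ^ n ≤ (∑ i ∈ range n, t * α ^ i) - n := by
    have h7 : 0 < α - 1 := by linarith
    rw [← sub_nonneg]
    have h8 : 0 ≤ ((∑ i ∈ range n, t * α ^ i) - n - t * α ^ n) * (α - 1) := by
      nlinarith
    exact nonneg_of_mul_nonneg_left h8 h7
  have h9 : (⌊t * α ^ n⌋ : ℝ) ≤ ((∑ i ∈ range n, ⌊t * α ^ i⌋ : ℤ) : ℝ) :=
    (Int.floor_le _).trans (h6.trans h4)
  have h10 : ⌊t * α ^ n⌋ ≤ ∑ i ∈ range n, ⌊t * α ^ i⌋ := by exact_mod_cast h9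
  linarith

lemma finite_check (ht : 0 < t) (h1 : 1 < α) (h2 : α < 2) :
    {n : ℕ | t * α ^ n * (2 - α) < t + n * (α - 1)}.Finite := by
  have h3 : Filter.Tendsto (fun n : ℕ => (n : ℝ) / α ^ n) Filter.atTop (nhds 0) := by
    have := tendsto_pow_const_div_const_pow_of_one_lt 1 h1
    simpa using this
  have h4 : Filter.Tendsto (fun n : ℕ => t / α ^ n) Filter.atTop (nhds 0) :=
    (tendsto_pow_atTop_atTop_of_one_lt h1).const_div_atTop t
  have h5 : Filter.Tendsto (fun n : ℕ => t / α ^ n + (n : ℝ) / α ^ n * (α - 1)) Filter.atTop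
      (nhds (0 + 0 * (α - 1))) := h4.add (h3.mul_const _)
  rw [zero_mul, add_zero] at h5
  have h6 : 0 < t * (2 - α) := mul_pos ht (by linarith)
  have h7 := h5.eventually_lt_const h6
  rw [Filter.eventually_atTop] at h7
  obtain ⟨N, hN⟩ := h7
  refine (Set.finite_lt_nat N).subset fun n hn => ?_
  by_contra hc
  have h8 := hN n (not_lt.1 hc)
  have h9 : 0 < α ^ n := by positivity
  change t * α ^ n * (2 - α) < t + n * (α - 1) at hn
  have h10 : t / α ^ n + (n : ℝ) / α ^ n * (α - 1) = (t + n * (α - 1)) / α ^ n := by ring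
  rw [h10, div_lt_iff₀ h9] at h8
  linarith

end Floor

lemma golden_le_two : (1 + √5) / 2 ≤ 2 := by
  have h5 : √5 ^ 2 = 5 := Real.sq_sqrt (by norm_num)
  have h0 : 0 ≤ √5 := Real.sqrt_nonneg 5
  nlinarith

lemma not_good_two_le {t α : ℝ} (hα : (1 + √5) / 2 ≤ α) (ht : 2 ≤ t) : ¬ Good t α := by
  intro h
  have ht0 : 0 < t := by linarith
  have h1 : 3 / 2 < α := golden_gt hα
  have h2 := (good_iff ht0 hα).1 h 0
  have h3 := sumBelow_le (fun n : ℕ => ⌊t * α ^ n⌋) (fun n => fl_nonneg ht0 (by linarith) n)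
    (fl_mono ht0 (by linarith)) 0
  rw [range_zero, sum_empty] at h3
  have h4 : (2 : ℤ) ≤ ⌊t * α ^ 0⌋ := by
    rw [pow_zero, mul_one, Int.le_floor]
    exact_mod_cast ht
  have h5 : sumBelow (seqSet t α) ⌊t * α ^ 0⌋ ≤ 0 := h3
  linarith

lemma good_two {t : ℝ} (ht : 0 < t) : Good t 2 ↔ ∃ k : ℕ, t = (1 / 2) ^ k := by
  classical
  have hα := golden_le_two
  have hnn : ∀ n : ℕ, 0 ≤ ⌊t * 2 ^ n⌋ := fun n => fl_nonneg ht (by norm_num) n
  have hm := fl_mono ht (by norm_num : (1 : ℝ) ≤ 2)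
  rw [good_iff ht hα]
  constructor
  · intro h
    have hex : ∃ n : ℕ, 1 ≤ ⌊t * 2 ^ n⌋ := fl_inf ht (by norm_num) 1
    classical
    obtain ⟨k, hk1, hk2⟩ : ∃ k : ℕ, 1 ≤ ⌊t * 2 ^ k⌋ ∧ ∀ i < k, ⌊t * 2 ^ i⌋ = 0 := by
      refine ⟨Nat.find hex, Nat.find_spec hex, fun i hi => ?_⟩
      have := Nat.find_min hex hi
      have := hnn i
      omega
    have hz : ∑ i ∈ range k, ⌊t * 2 ^ i⌋ = 0 := sum_eq_zero fun i hi => hk2 i (mem_range.1 hi)
    have key : ∀ j : ℕ, ⌊t * 2 ^ (k + j)⌋ = 2 ^ j ∧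
        ∑ i ∈ range (k + j), ⌊t * 2 ^ i⌋ = 2 ^ j - 1 := by
      intro j
      induction j with
      | zero =>
        refine ⟨?_, by simpa using hz⟩
        have h3 := sumBelow_le (fun n : ℕ => ⌊t * (2 : ℝ) ^ n⌋) hnn hm k
        have h4 := h k
        have h5 : sumBelow (seqSet t 2) ⌊t * 2 ^ k⌋ ≤ ∑ i ∈ range k, ⌊t * 2 ^ i⌋ := h3
        rw [add_zero, pow_zero]
        linarith
      | succ j ih =>
        obtain ⟨i1, i2⟩ := ih
        have h6 : ∑ i ∈ range (k + (j + 1)), ⌊t * 2 ^ i⌋ = 2 ^ (j + 1) - 1 := by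
          rw [← add_assoc, sum_range_succ, i1, i2]
          ring
        refine ⟨?_, h6⟩
        have h3 := sumBelow_le (fun n : ℕ => ⌊t * (2 : ℝ) ^ n⌋) hnn hm (k + (j + 1))
        have h4 := h (k + (j + 1))
        have h5 : sumBelow (seqSet t 2) ⌊t * 2 ^ (k + (j + 1))⌋
            ≤ ∑ i ∈ range (k + (j + 1)), ⌊t * 2 ^ i⌋ := h3
        have h7 : (2 : ℤ) ^ (j + 1) ≤ ⌊t * 2 ^ (k + (j + 1))⌋ := by
          rw [Int.le_floor]
          push_cast
          have h8 := Int.floor_le (t * 2 ^ (k + j))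
          rw [i1] at h8
          push_cast at h8
          calc (2 : ℝ) ^ (j + 1) = 2 ^ j * 2 := by ring
            _ ≤ t * 2 ^ (k + j) * 2 := by linarith
            _ = t * 2 ^ (k + (j + 1)) := by ring
        linarith
    refine ⟨k, ?_⟩
    have h9 : t * 2 ^ k = 1 := by
      apply le_antisymm
      · by_contra hc
        rw [not_le] at hc
        obtain ⟨j, hj⟩ := pow_unbounded_of_one_lt (1 / (t * 2 ^ k - 1)) (by norm_num : (1 : ℝ) < 2)
        rw [div_lt_iff₀ (by linarith)] at hj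
        have h10 := Int.lt_floor_add_one (t * 2 ^ (k + j))
        rw [(key j).1] at h10
        push_cast at h10
        have h11 : t * 2 ^ (k + j) = t * 2 ^ k * 2 ^ j := by ring
        rw [h11] at h10
        nlinarith
      · have h12 := Int.floor_le (t * 2 ^ k)
        have h13 : (1 : ℝ) ≤ (⌊t * 2 ^ k⌋ : ℝ) := by exact_mod_cast hk1
        linarith
    rw [one_div, inv_pow]
    exact eq_inv_of_mul_eq_one_left h9
  · rintro ⟨k, rfl⟩ n
    have e : ∀ j : ℕ, ⌊(1 / 2 : ℝ) ^ k * 2 ^ (k + j)⌋ = 2 ^ j := by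
      intro j
      have : (1 / 2 : ℝ) ^ k * 2 ^ (k + j) = ((2 ^ j : ℤ) : ℝ) := by
        push_cast
        rw [pow_add, ← mul_assoc, ← mul_pow]
        norm_num
      rw [this, Int.floor_intCast]
    by_cases hn : n < k
    · have h1 : ⌊(1 / 2 : ℝ) ^ k * 2 ^ n⌋ ≤ 0 := by
        have h2 : (1 / 2 : ℝ) ^ k * 2 ^ n < 1 := by
          rw [one_div, inv_pow, inv_mul_lt_iff₀ (by positivity), mul_one]
          exact pow_lt_pow_right₀ (by norm_num) hn
        have h3 := Int.floor_lt.2 (show (1 / 2 : ℝ) ^ k * 2 ^ n < ((1 : ℤ) : ℝ) by simpa using h2)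
        omega
      have h4 : 0 ≤ sumBelow (seqSet ((1 / 2) ^ k) 2) ⌊(1 / 2 : ℝ) ^ k * 2 ^ n⌋ := by
        unfold sumBelow
        exact sum_nonneg fun y hy => (mem_Ico.1 (mem_filter.1 hy).1).1
      linarith
    · obtain ⟨j, rfl⟩ : ∃ j, n = k + j := ⟨n - k, by omega⟩
      have e' : ∀ i, k ≤ i → ⌊(1 / 2 : ℝ) ^ k * 2 ^ i⌋ = 2 ^ (i - k) := by
        intro i hi
        have := e (i - k)
        rwa [show k + (i - k) = i by omega] at this
      have h1 := le_sumBelow (fun n : ℕ => ⌊(1 / 2 : ℝ) ^ k * 2 ^ n⌋) hnn k (k + j)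
        (by
          intro x hx y hy hxy
          rw [coe_Ico, Set.mem_Ico] at hx hy
          replace hxy : ⌊(1 / 2 : ℝ) ^ k * 2 ^ x⌋ = ⌊(1 / 2 : ℝ) ^ k * 2 ^ y⌋ := hxy
          rw [e' x hx.1, e' y hy.1] at hxy
          have := Int.pow_right_injective (le_refl 2) hxy
          omega)
        (by
          intro i hi
          rw [mem_Ico] at hi
          change ⌊(1 / 2 : ℝ) ^ k * 2 ^ i⌋ < ⌊(1 / 2 : ℝ) ^ k * 2 ^ (k + j)⌋
          rw [e' i hi.1, e j]
          exact pow_lt_pow_right₀ (by norm_num) (by omega))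
      have h2 : ∑ i ∈ Finset.Ico k (k + j), ⌊(1 / 2 : ℝ) ^ k * 2 ^ i⌋ = 2 ^ j - 1 := by
        rw [sum_Ico_eq_sum_range, show k + j - k = j by omega]
        have h3 : ∀ i ∈ range j, ⌊(1 / 2 : ℝ) ^ k * 2 ^ (k + i)⌋ = (2 : ℤ) ^ i := fun i _ => e i
        rw [sum_congr rfl h3]
        have := geom_sum_mul (2 : ℤ) j
        linarith
      have h3 : ∑ i ∈ Finset.Ico k (k + j), ⌊(1 / 2 : ℝ) ^ k * 2 ^ i⌋
          ≤ sumBelow (seqSet ((1 / 2) ^ k) 2) ⌊(1 / 2 : ℝ) ^ k * 2 ^ (k + j)⌋ := h1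
      rw [h2] at h3
      rw [e j] at h3 ⊢
      linarith

/-- **Main result.** On the whole strip `α ≥ (1+√5)/2` the set `G` is determined by a finite
greedy test.  For every `t > 0` and `α ≥ (1+√5)/2`:

1. `(t,α)` is good iff every element `a` of `A(t,α)` is at most `1 +` the sum of the smaller
   elements of `A(t,α)`;
2. if moreover `α < 2`, only the finitely many indices `n` with
   `t α^n (2-α) < t + n (α-1)` have to be tested;
3. if `t ≥ 2` the pair is not good;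
4. on the line `α = 2` the pair is good iff `t = 2^{-k}` for some integer `k ≥ 0`. -/
theorem result :
    (∀ t α : ℝ, 0 < t → (1 + √5) / 2 ≤ α →
      (Good t α ↔ ∀ a ∈ seqSet t α, a ≤ 1 + sumBelow (seqSet t α) a)) ∧
    (∀ t α : ℝ, 0 < t → (1 + √5) / 2 ≤ α → α < 2 →
      {n : ℕ | t * α ^ n * (2 - α) < t + n * (α - 1)}.Finite ∧
      (Good t α ↔ ∀ n : ℕ, t * α ^ n * (2 - α) < t + n * (α - 1) →
        ⌊t * α ^ n⌋ ≤ 1 + sumBelow (seqSet t α) ⌊t * α ^ n⌋)) ∧
    (∀ t α : ℝ, 2 ≤ t → (1 + √5) / 2 ≤ α → ¬ Good t α) ∧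
    (∀ t : ℝ, 0 < t → (Good t 2 ↔ ∃ k : ℕ, t = (1 / 2) ^ k)) := by
  refine ⟨?_, ?_, ?_, ?_⟩
  · intro t α ht hα
    rw [good_iff ht hα]
    constructor
    · rintro h _ ⟨n, rfl⟩
      exact h n
    · intro h n
      exact h _ ⟨n, rfl⟩
  · intro t α ht hα h2
    refine ⟨finite_check ht (by linarith [golden_gt hα]) h2, ?_⟩
    rw [good_iff ht hα]
    constructor
    · intro h n _
      exact h n
    · intro h n
      by_cases hn : t * α ^ n * (2 - α) < t + n * (α - 1)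
      · exact h n hn
      · exact auto ht hα n (not_lt.1 hn)
  · intro t α ht hα
    exact not_good_two_le hα ht
  · intro t ht
    exact good_two ht

end Pool.Agent.Results.MP_0ff3a5_nt.GoldenCriterion
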